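import Pool.Agent.helper22.OB.SpecG
import Pool.Agent.helper80.OB.TUP

/-!
# Project ob, row HH1
-/

set_option autoImplicit false

namespace Pool.Agent.OB

open Pool.Agent.helper58.DC Pool.Agent.DI Pool.Agent.GR

theorem HH1_qq {G : Type} [Group G] (y : G) {n : ℕ} (z : Fin n → G) :
    qq (fun j => y * z j * y⁻¹) = y * qq z * y⁻¹ := by
  have h1 : (MulAut.conj y) (List.ofFn z).prod = ((List.ofFn z).map (MulAut.conj y)).prod :=
    map_list_prod _ _
  rw [List.map_ofFn] at h1
  exact h1.symm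

theorem HH1_cl {G : Type} [Group G] (y s : G) {n : ℕ} (z : Fin n → G) :
    Subgroup.closure (Set.range (fun j => y * z j * y⁻¹) ∪ {y * s * y⁻¹}) =
      cj y (Subgroup.closure (Set.range z ∪ {s})) := by
  unfold cj
  rw [MonoidHom.map_closure, Set.image_union, Set.image_singleton, ← Set.range_comp]
  rfl

theorem HH1 (hWCJ : WCJ_stmt) : HH1_stmt := by
  intro G _ _ p _ f₁ f₂ n hf₂
  constructor
  · have := Fintype.ofFinite G
    unfold Sp hh
    classical
    rw [finsum_eq_sum_of_fintype, Fintype.sum_prod_type_right, finsum_eq_sum_of_fintype]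
    refine Finset.sum_congr rfl fun s _ => ?_
    rw [finsum_eq_sum_of_fintype, Finset.mul_sum]
    refine Finset.sum_congr rfl fun z _ => ?_
    ring
  · intro s y
    unfold hh
    let e : (Fin n → G) ≃ (Fin n → G) :=
      Equiv.piCongrRight (fun _ : Fin n => (MulAut.conj y).toEquiv)
    rw [← finsum_comp_equiv e]
    refine finsum_congr fun z => ?_
    have he : e z = fun j => y * z j * y⁻¹ := rfl
    rw [he, HH1_qq, HH1_cl, (hWCJ G p).1]
    have e1 : (y * qq z * y⁻¹ * (y * s * y⁻¹))⁻¹ = y * (qq z * s)⁻¹ * y⁻¹ := by group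
    rw [e1, hf₂]
    have e2 : (∏ j, tp p (y * z j * y⁻¹)) = ∏ j, tp p (z j) :=
      Finset.prod_congr rfl fun j _ => TUP_tp p (z j) y
    rw [e2]

end Pool.Agent.OB
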