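import Pool.Agent.helper38.OB.Spec

namespace Pool.Agent.OB

open Finset

theorem PRA : PRA_stmt := by
  classical
  intro V w _
  have key : ∀ T : Finset ℕ, T ⊆ V → pr V w (fun A => T ⊆ A) = ∏ x ∈ T, w x := by
    intro T hT
    have h1 := Finset.prod_add w (fun x => if x ∈ T then 0 else 1 - w x) V
    have h2 : ∏ x ∈ V, (w x + (fun x => if x ∈ T then 0 else 1 - w x) x) = ∏ x ∈ T, w x := by
      have : ∀ x ∈ V, (w x + (fun x => if x ∈ T then 0 else 1 - w x) x) = if x ∈ T then w x else 1 := by
        intro x _
        by_cases hx : x ∈ T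
        · simp [hx]
        · simp [hx]
      rw [Finset.prod_congr rfl this, Finset.prod_ite_mem, Finset.inter_eq_right.mpr hT]
    rw [h2] at h1
    rw [h1]
    unfold pr
    rw [Finset.sum_filter]
    refine Finset.sum_congr rfl fun A hA => ?_
    rw [Finset.mem_powerset] at hA
    by_cases hTA : T ⊆ A
    · rw [if_pos hTA]
      congr 1
      refine Finset.prod_congr rfl fun x hx => ?_
      rw [Finset.mem_sdiff] at hx
      have : x ∉ T := fun h => hx.2 (hTA h)
      simp [this]
    · rw [if_neg hTA]
      obtain ⟨x, hxT, hxA⟩ := Finset.not_subset.mp hTA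
      symm
      apply mul_eq_zero_of_right
      apply Finset.prod_eq_zero (Finset.mem_sdiff.mpr ⟨hT hxT, hxA⟩)
      simp [hxT]
  refine ⟨?_, key⟩
  have h := key ∅ (Finset.empty_subset V)
  simpa using h

end Pool.Agent.OB
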