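import Pool.Agent.helper38.OB.Spec

namespace Pool.Agent.OB

open Finset

theorem PRD_pow (p a : ℝ) (hp : 0 ≤ p) (ha : 0 ≤ a) (s : ℕ) :
    p ^ (s + 1) + ((s : ℝ) + 1) * a * p ^ s ≤ (p + a) ^ (s + 1) := by
  induction s with
  | zero => simp
  | succ s ih =>
    have h1 : (p + a) ^ (s + 1 + 1) = (p + a) * (p + a) ^ (s + 1) := by ring
    have h2 : (p + a) * (p ^ (s + 1) + ((s : ℝ) + 1) * a * p ^ s) ≤ (p + a) * (p + a) ^ (s + 1) :=
      mul_le_mul_of_nonneg_left ih (by positivity)
    have h3 : 0 ≤ ((s : ℝ) + 1) * a * a * p ^ s := by positivity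
    rw [h1]
    push_cast
    have h4 : (p + a) * (p ^ (s + 1) + ((s : ℝ) + 1) * a * p ^ s) =
        p ^ (s + 1 + 1) + (((s : ℝ) + 1) + 1) * a * p ^ (s + 1) + ((s : ℝ) + 1) * a * a * p ^ s := by ring
    linarith

theorem PRD_sym {ι : Type} (F : Finset ι) (a : ι → ℝ) : (∀ i ∈ F, 0 ≤ a i) → ∀ s : ℕ,
    (s.factorial : ℝ) * ∑ G ∈ F.powersetCard s, ∏ i ∈ G, a i ≤ (∑ i ∈ F, a i) ^ s := by
  classical
  induction F using Finset.induction_on with
  | empty =>
    intro _ s
    cases s with
    | zero => simp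
    | succ s =>
      have h0 : (∅ : Finset ι).powersetCard (s + 1) = ∅ := Finset.powersetCard_eq_empty.mpr (by simp)
      rw [h0]
      simp
  | insert i F hi ih =>
    intro ha s
    have ha' : ∀ j ∈ F, 0 ≤ a j := fun j hj => ha j (Finset.mem_insert_of_mem hj)
    have hai : 0 ≤ a i := ha i (Finset.mem_insert_self i F)
    have hp : 0 ≤ ∑ j ∈ F, a j := Finset.sum_nonneg ha'
    cases s with
    | zero => simp
    | succ s =>
      rw [Finset.powersetCard_succ_insert hi, Finset.sum_union, Finset.sum_insert hi]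
      · have h1 : ∑ G ∈ (F.powersetCard s).image (insert i), ∏ j ∈ G, a j =
            a i * ∑ G ∈ F.powersetCard s, ∏ j ∈ G, a j := by
          rw [Finset.sum_image, Finset.mul_sum]
          · refine Finset.sum_congr rfl fun G hG => ?_
            rw [Finset.mem_powersetCard] at hG
            rw [Finset.prod_insert (fun h => hi (hG.1 h))]
          · intro G hG G' hG' he
            have hG1 := (Finset.mem_powersetCard.mp hG).1
            have hG2 := (Finset.mem_powersetCard.mp hG').1
            have e1 : (insert i G).erase i = G := Finset.erase_insert (fun h => hi (hG1 h))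
            have e2 : (insert i G').erase i = G' := Finset.erase_insert (fun h => hi (hG2 h))
            rw [← e1, ← e2]
            exact congrArg (fun X => X.erase i) he
        rw [h1]
        have h2 := ih ha' (s + 1)
        have h3 := ih ha' s
        have h4 := PRD_pow (∑ j ∈ F, a j) (a i) hp hai s
        have h5 : ((s + 1).factorial : ℝ) = ((s : ℝ) + 1) * (s.factorial : ℝ) := by
          rw [Nat.factorial_succ]; push_cast; ring
        have h6 : ((s + 1).factorial : ℝ) * (a i * ∑ G ∈ F.powersetCard s, ∏ j ∈ G, a j) =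
            ((s : ℝ) + 1) * a i * ((s.factorial : ℝ) * ∑ G ∈ F.powersetCard s, ∏ j ∈ G, a j) := by
          rw [h5]; ring
        have h7 : ((s : ℝ) + 1) * a i * ((s.factorial : ℝ) * ∑ G ∈ F.powersetCard s, ∏ j ∈ G, a j) ≤
            ((s : ℝ) + 1) * a i * (∑ j ∈ F, a j) ^ s := mul_le_mul_of_nonneg_left h3 (by positivity)
        rw [mul_add, h6, add_comm (a i)]
        linarith
      · rw [Finset.disjoint_left]
        intro G hG hG'
        obtain ⟨G0, _, rfl⟩ := Finset.mem_image.mp hG'
        exact hi ((Finset.mem_powersetCard.mp hG).1 (Finset.mem_insert_self i G0))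

theorem PRD (hPRA : PRA_stmt) : PRD_stmt := by
  classical
  intro V w hw ι F T hT s
  have hW : ∀ A ∈ V.powerset, 0 ≤ (∏ x ∈ A, w x) * ∏ x ∈ V \ A, (1 - w x) := by
    intro A hA
    rw [Finset.mem_powerset] at hA
    refine mul_nonneg (Finset.prod_nonneg fun x hx => (hw x (hA hx)).1) (Finset.prod_nonneg fun x hx => ?_)
    have := (hw x (Finset.mem_sdiff.mp hx).1).2
    linarith
  set I : Finset (Finset ι) := (F.powersetCard s).filter fun G => ∀ i ∈ G, ∀ k ∈ G, i ≠ k → Disjoint (T i) (T k) with hI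
  have h1 : pr V w (fun A => ∃ G : Finset ι, G ⊆ inn F T A ∧ G.card = s ∧
      ∀ i ∈ G, ∀ k ∈ G, i ≠ k → Disjoint (T i) (T k)) ≤ ∑ G ∈ I, pr V w (fun A => G.biUnion T ⊆ A) := by
    unfold pr
    simp only [Finset.sum_filter]
    rw [Finset.sum_comm]
    refine Finset.sum_le_sum fun A hA => ?_
    have hnn : ∀ G ∈ I, 0 ≤ (@ite ℝ (G.biUnion T ⊆ A) (Classical.propDecidable _)
        ((∏ x ∈ A, w x) * ∏ x ∈ V \ A, (1 - w x)) 0) := by
      intro G _
      split_ifs
      · exact hW A hA
      · exact le_rfl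
    split_ifs with hP
    · obtain ⟨G, hG, hs, hd⟩ := hP
      have hGF : G ⊆ F := by
        intro i hi
        have := hG hi
        unfold inn at this
        exact (Finset.mem_filter.mp this).1
      have hGT : G.biUnion T ⊆ A := by
        refine Finset.biUnion_subset.mpr fun i hi => ?_
        have := hG hi
        unfold inn at this
        exact (Finset.mem_filter.mp this).2
      have hGI : G ∈ I := by
        rw [hI, Finset.mem_filter, Finset.mem_powersetCard]
        exact ⟨⟨hGF, hs⟩, hd⟩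
      have h2 := Finset.single_le_sum hnn hGI
      rw [if_pos hGT] at h2
      exact h2
    · exact Finset.sum_nonneg hnn
  have ha : ∀ i ∈ F, 0 ≤ ∏ x ∈ T i, w x := fun i hi =>
    Finset.prod_nonneg fun x hx => (hw x (hT i hi hx)).1
  have h2 : ∑ G ∈ I, pr V w (fun A => G.biUnion T ⊆ A) ≤ ∑ G ∈ F.powersetCard s, ∏ i ∈ G, ∏ x ∈ T i, w x := by
    calc ∑ G ∈ I, pr V w (fun A => G.biUnion T ⊆ A) = ∑ G ∈ I, ∏ i ∈ G, ∏ x ∈ T i, w x := by
          refine Finset.sum_congr rfl fun G hG => ?_
          rw [hI, Finset.mem_filter, Finset.mem_powersetCard] at hG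
          rw [(hPRA V w hw).2 (G.biUnion T) (Finset.biUnion_subset.mpr fun i hi => hT i (hG.1.1 hi)),
            Finset.prod_biUnion]
          intro i hi k hk hik
          exact hG.2 i hi k hk hik
      _ ≤ ∑ G ∈ F.powersetCard s, ∏ i ∈ G, ∏ x ∈ T i, w x := by
          refine Finset.sum_le_sum_of_subset_of_nonneg (Finset.filter_subset _ _) fun G hG _ => ?_
          exact Finset.prod_nonneg fun i hi => ha i ((Finset.mem_powersetCard.mp hG).1 hi)
  have h3 := PRD_sym F (fun i => ∏ x ∈ T i, w x) ha s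
  have h4 : (0 : ℝ) < (s.factorial : ℝ) := by exact_mod_cast s.factorial_pos
  refine h1.trans (h2.trans ?_)
  rw [le_div_iff₀ h4, mul_comm]
  exact h3

end Pool.Agent.OB
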